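import Mathlib
import Pool.Agent.H98.TC.Defs
import Pool.Agent.H98.TC.Conn
import Pool.Agent.H98.TC.Sep
import Pool.Agent.H98.TC.Fam

set_option autoImplicit false

/-!
A spanning subgraph `T` with `M` bridgeless gives removable circuits (MP_a46c6f_co).
-/

namespace Pool.Agent.H57.TH

open SimpleGraph Pool.Agent.H5.Goddyn Pool.Agent.H98 Pool.Agent.H98.TC

variable {V : Type*}

theorem removable_of_bridgeless [Finite V] (G : SimpleGraph V) (M C₁ C₂ : G.Subgraph)
    (h : IsPermutationGraph G M C₁ C₂) (T : SimpleGraph V) (C : G.Subgraph) (hC : IsCircuit C)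
    (hTG : T ≤ G) (hTC : ∀ a b, T.Adj a b → C.Adj a b → M.Adj a b)
    (hT : ∀ a b, M.Adj a b → ¬ C.Adj a b → ¬ T.IsBridge s(a, b)) : Removable G (wt M) C := by
  classical
  let w₁ : Sym2 V → ℕ := fun e => wt M e - if e ∈ C.edgeSet then 1 else 0
  have hwt1 : ∀ e, 1 ≤ wt M e := by
    intro e; unfold wt; split_ifs <;> omega
  have hw : ∀ e, wt M e = w₁ e + if e ∈ C.edgeSet then 1 else 0 := by
    intro e
    have := hwt1 e
    show wt M e = (wt M e - if e ∈ C.edgeSet then 1 else 0) + if e ∈ C.edgeSet then 1 else 0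
    split_ifs <;> omega
  have hsupp : ∀ u v, (TC.support G w₁).Adj u v ↔ G.Adj u v ∧ 0 < w₁ s(u, v) := by
    intro u v
    simp only [TC.support, fromEdgeSet_adj, Set.mem_ofPred_eq, mem_edgeSet, ne_eq]
    constructor
    · rintro ⟨⟨h1, h2⟩, -⟩; exact ⟨h1, h2⟩
    · rintro ⟨h1, h2⟩; exact ⟨⟨h1, h2⟩, h1.ne⟩
  have hev : ∀ v, Even {u | G.Adj v u ∧ Odd (w₁ s(v, u))}.ncard := by
    intro v
    refine even_odd_edges G M C₁ C₂ h C hC.2 w₁ v ?_ ?_
    · intro u _ hcu
      rw [hw s(v, u), if_pos (show s(v, u) ∈ C.edgeSet from hcu)]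
    · intro u _ hcu
      rw [hw s(v, u), if_neg (fun hh : s(v, u) ∈ C.edgeSet => hcu hh), Nat.add_zero]
  -- `T` lies in the support
  have hTs : T ≤ TC.support G w₁ := by
    intro a b hab
    rw [hsupp]
    refine ⟨hTG hab, ?_⟩
    have h1 := hw s(a, b)
    by_cases hM : M.Adj a b
    · have h2 : wt M s(a, b) = 2 := by
        unfold wt
        rw [if_pos (show s(a, b) ∈ M.edgeSet from hM)]
      split_ifs at h1 <;> omega
    · have h3 : s(a, b) ∉ C.edgeSet := fun hc => hM (hTC a b hab hc)
      rw [if_neg h3] at h1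
      have := hwt1 s(a, b)
      omega
  -- the graph of the odd edges
  let O : SimpleGraph V :=
    { Adj := fun u v => G.Adj u v ∧ Odd (w₁ s(u, v))
      symm := ⟨fun u v hh => ⟨hh.1.symm, by rw [Sym2.eq_swap]; exact hh.2⟩⟩
      loopless := ⟨fun u hh => G.loopless.irrefl _ hh.1⟩ }
  have hOs : O ≤ TC.support G w₁ := by
    intro a b hab
    rw [hsupp]
    exact ⟨hab.1, hab.2.pos⟩
  have hOc : O.IsCycles := by
    intro v hv
    have hfin : (G.neighborSet v).Finite := Set.toFinite _
    have h1 : (O.neighborSet v).ncard ≤ 3 := by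
      rw [← h.cubic v]
      exact Set.ncard_le_ncard (fun u hu => hu.1) hfin
    have h2 : Even (O.neighborSet v).ncard := hev v
    have h3 : (O.neighborSet v).ncard ≠ 0 := by
      exact ((Set.ncard_pos (Set.toFinite _)).2 hv).ne'
    obtain ⟨r, hr⟩ := h2
    omega
  refine ⟨hC, w₁, fun e _ => hw e, ?_, ?_⟩
  · intro v
    have hset : {u | (TC.support G w₁).Adj v u ∧ Odd (w₁ s(v, u))} =
        {u | G.Adj v u ∧ Odd (w₁ s(v, u))} := by
      ext u
      simp only [Set.mem_ofPred_eq, hsupp]
      constructor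
      · rintro ⟨⟨h1, -⟩, h2⟩; exact ⟨h1, h2⟩
      · rintro ⟨h1, h2⟩; exact ⟨⟨h1, h2.pos⟩, h2⟩
    rw [hset]
    exact hev v
  · intro e he
    induction e using Sym2.ind with
    | _ a b =>
      rw [isBridge_iff, not_not]
      have hab := (hsupp a b).1 he
      by_cases hM : M.Adj a b ∧ ¬ C.Adj a b
      · have h1 := hT a b hM.1 hM.2
        rw [isBridge_iff, not_not] at h1
        exact h1.mono (deleteEdges_mono hTs)
      · have h1 : O.Adj a b := by
          refine ⟨hab.1, ?_⟩
          have h2 := hw s(a, b)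
          have h4 : w₁ s(a, b) = 1 := by
            by_cases hM' : M.Adj a b
            · have hc : C.Adj a b := by
                by_contra hc
                exact hM ⟨hM', hc⟩
              have h3 : wt M s(a, b) = 2 := by
                unfold wt
                rw [if_pos (show s(a, b) ∈ M.edgeSet from hM')]
              rw [if_pos (show s(a, b) ∈ C.edgeSet from hc)] at h2
              omega
            · have h3 : wt M s(a, b) = 1 := by
                unfold wt
                rw [if_neg (fun hh : s(a, b) ∈ M.edgeSet => hM' hh)]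
              omega
          rw [h4]
          exact odd_one
        exact (hOc.reachable_deleteEdges h1).mono (deleteEdges_mono hOs)

end Pool.Agent.H57.TH
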