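import Mathlib

set_option autoImplicit false

/-!
The combinatorial model of the graphs `H(u, v)` and `T(u, v)` (MP_a46c6f_co).
-/

namespace Pool.Agent.H57.TH

open SimpleGraph

variable {n : ℕ} [NeZero n]

/-- the edges `inl i - inr (π i)`, `inl i - inl (i + 1)` for `P i` and `inr j - inr (j + 1)` for
`Q j` -/
def rel (π : Fin n → Fin n) (P Q : Fin n → Prop) : Fin n ⊕ Fin n → Fin n ⊕ Fin n → Prop
  | .inl i, .inl j => j = i + 1 ∧ P i
  | .inl i, .inr j => j = π i
  | .inr i, .inr j => j = i + 1 ∧ Q i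
  | .inr _, .inl _ => False

/-- the graph with the edges `rel` -/
def Sc (π : Fin n → Fin n) (P Q : Fin n → Prop) : SimpleGraph (Fin n ⊕ Fin n) :=
  SimpleGraph.fromRel (rel π P Q)

/-- The graph `H(u, v)`: the matching and the near perfect matchings of the two circuits that miss
`u` and `v`. -/
def Hc (π : Fin n → Fin n) (u v : Fin n) : SimpleGraph (Fin n ⊕ Fin n) :=
  Sc π (fun i => Odd (i - u).val) (fun j => Odd (j - v).val)

/-- The graph `T(u, v)`: the matching and the other edges of the two circuits. -/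
def Tc (π : Fin n → Fin n) (u v : Fin n) : SimpleGraph (Fin n ⊕ Fin n) :=
  Sc π (fun i => Even (i - u).val) (fun j => Even (j - v).val)

theorem val_one' (hn : 3 ≤ n) : (1 : Fin n).val = 1 := by
  rw [Fin.val_one']
  exact Nat.mod_eq_of_lt (by omega)

theorem val_sub_one' (hn : 3 ≤ n) (d : Fin n) (hd : d ≠ 0) : (d - 1).val = d.val - 1 := by
  have h0 : d.val ≠ 0 := fun h => hd (Fin.ext (by rw [h]; rfl))
  have hlt := d.isLt
  rw [Fin.val_sub, val_one' hn]
  have : n - 1 + d.val = (d.val - 1) + n := by omega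
  rw [this, Nat.add_mod_right, Nat.mod_eq_of_lt (by omega)]

theorem val_neg_one' (hn : 3 ≤ n) : ((0 : Fin n) - 1).val = n - 1 := by
  rw [Fin.val_sub, val_one' hn]
  simp only [Fin.val_zero, Nat.add_zero]
  exact Nat.mod_eq_of_lt (by omega)

theorem add_one_ne (hn : 3 ≤ n) (i : Fin n) : i + 1 ≠ i := by
  intro h
  have h1 : (1 : Fin n) = 0 := by
    have := congrArg (fun t => t - i) h
    simpa using this
  have h2 := congrArg Fin.val h1
  rw [val_one' hn] at h2
  simp at h2

theorem add_two_ne (hn : 3 ≤ n) (i j : Fin n) (h1 : j = i + 1) (h2 : i = j + 1) : False := by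
  have h3 : (1 : Fin n) + 1 = 0 := by
    have h4 : i = i + (1 + 1) := by
      rw [← add_assoc, ← h1]; exact h2
    have := congrArg (fun t => t - i) h4
    simpa using this.symm
  have h5 := congrArg Fin.val h3
  rw [Fin.val_add, val_one' hn] at h5
  rw [Nat.mod_eq_of_lt (by omega)] at h5
  simp at h5

theorem sc_inl_inl {π : Fin n → Fin n} {P Q : Fin n → Prop} (hn : 3 ≤ n) (i j : Fin n) :
    (Sc π P Q).Adj (.inl i) (.inl j) ↔ (j = i + 1 ∧ P i) ∨ (i = j + 1 ∧ P j) := by
  simp only [Sc, fromRel_adj, rel, ne_eq, Sum.inl.injEq]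
  constructor
  · rintro ⟨_, h⟩; exact h
  · intro h
    refine ⟨?_, h⟩
    rintro rfl
    rcases h with ⟨h, _⟩ | ⟨h, _⟩ <;> exact add_one_ne hn _ h.symm

theorem sc_inr_inr {π : Fin n → Fin n} {P Q : Fin n → Prop} (hn : 3 ≤ n) (i j : Fin n) :
    (Sc π P Q).Adj (.inr i) (.inr j) ↔ (j = i + 1 ∧ Q i) ∨ (i = j + 1 ∧ Q j) := by
  simp only [Sc, fromRel_adj, rel, ne_eq, Sum.inr.injEq]
  constructor
  · rintro ⟨_, h⟩; exact h
  · intro h
    refine ⟨?_, h⟩
    rintro rfl
    rcases h with ⟨h, _⟩ | ⟨h, _⟩ <;> exact add_one_ne hn _ h.symm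

theorem sc_inl_inr {π : Fin n → Fin n} {P Q : Fin n → Prop} (i j : Fin n) :
    (Sc π P Q).Adj (.inl i) (.inr j) ↔ j = π i := by
  simp [Sc, fromRel_adj, rel]

theorem sc_inr_inl {π : Fin n → Fin n} {P Q : Fin n → Prop} (i j : Fin n) :
    (Sc π P Q).Adj (.inr j) (.inl i) ↔ j = π i := by
  simp [Sc, fromRel_adj, rel]

/-- exactly one of the two edges at `i ≠ u` is odd -/
theorem par (hn : 3 ≤ n) (u i : Fin n) (h : i ≠ u) : Odd (i - u).val ↔ ¬ Odd (i - 1 - u).val := by
  have hd : i - u ≠ 0 := sub_ne_zero.2 h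
  have h1 : i - 1 - u = (i - u) - 1 := by abel
  have h2 := val_sub_one' hn (i - u) hd
  have h0 : (i - u).val ≠ 0 := fun h => hd (Fin.ext (by rw [h]; rfl))
  rw [h1, h2, Nat.odd_iff, Nat.odd_iff]
  omega

theorem par_u (hn : 3 ≤ n) (ho : Odd n) (u : Fin n) :
    ¬ Odd (u - u).val ∧ ¬ Odd (u - 1 - u).val := by
  constructor
  · rw [sub_self]
    simp
  · have h1 : u - 1 - u = 0 - 1 := by abel
    rw [h1, val_neg_one' hn]
    rw [Nat.odd_iff] at ho ⊢
    omega

theorem nbr_inl (hn : 3 ≤ n) (π : Fin n → Fin n) (u v i : Fin n) (h : i ≠ u) :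
    ((Hc π u v).neighborSet (.inl i)).ncard = 2 := by
  have hp := par hn u i h
  by_cases hi : Odd (i - u).val
  · have : (Hc π u v).neighborSet (.inl i) = {.inr (π i), .inl (i + 1)} := by
      ext a
      rcases a with j | j
      · simp only [mem_neighborSet, Hc, sc_inl_inl hn, Set.mem_insert_iff, Set.mem_singleton_iff,
          reduceCtorEq, false_or, Sum.inl.injEq]
        constructor
        · rintro (⟨h1, _⟩ | ⟨h1, h2⟩)
          · exact h1
          · exfalso
            have h3 : j = i - 1 := by rw [h1]; abel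
            subst h3
            exact hp.1 hi h2
        · intro h1
          exact Or.inl ⟨h1, hi⟩
      · simp [mem_neighborSet, Hc, sc_inl_inr]
    rw [this]
    exact Set.ncard_pair (by simp)
  · have hi' : Odd (i - 1 - u).val := by
      by_contra h3
      exact hi (hp.2 h3)
    have : (Hc π u v).neighborSet (.inl i) = {.inr (π i), .inl (i - 1)} := by
      ext a
      rcases a with j | j
      · simp only [mem_neighborSet, Hc, sc_inl_inl hn, Set.mem_insert_iff, Set.mem_singleton_iff,
          reduceCtorEq, false_or, Sum.inl.injEq]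
        constructor
        · rintro (⟨h1, h2⟩ | ⟨h1, h2⟩)
          · exact absurd h2 hi
          · rw [h1]; abel
        · intro h1
          subst h1
          exact Or.inr ⟨by abel, hi'⟩
      · simp [mem_neighborSet, Hc, sc_inl_inr]
    rw [this]
    exact Set.ncard_pair (by simp)

theorem nbr_inl_u (hn : 3 ≤ n) (ho : Odd n) (π : Fin n → Fin n) (u v : Fin n) :
    (Hc π u v).neighborSet (.inl u) = {.inr (π u)} := by
  obtain ⟨hp1, hp2⟩ := par_u hn ho u
  ext a
  rcases a with j | j
  · simp only [mem_neighborSet, Hc, sc_inl_inl hn, Set.mem_singleton_iff, reduceCtorEq, iff_false]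
    rintro (⟨_, h2⟩ | ⟨h1, h2⟩)
    · exact hp1 h2
    · have h3 : j = u - 1 := by rw [h1]; abel
      subst h3
      exact hp2 h2
  · simp [mem_neighborSet, Hc, sc_inl_inr]

theorem nbr_inr (hn : 3 ≤ n) (π : Fin n → Fin n) (hπ : Function.Bijective π) (u v j : Fin n)
    (h : j ≠ v) : ((Hc π u v).neighborSet (.inr j)).ncard = 2 := by
  obtain ⟨i, rfl⟩ := hπ.2 j
  have hp := par hn v (π i) h
  by_cases hi : Odd (π i - v).val
  · have : (Hc π u v).neighborSet (.inr (π i)) = {.inl i, .inr (π i + 1)} := by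
      ext a
      rcases a with k | k
      · simp only [mem_neighborSet, Hc, sc_inr_inl, Set.mem_insert_iff, Set.mem_singleton_iff,
          reduceCtorEq, or_false, Sum.inl.injEq]
        exact ⟨fun h1 => (hπ.1 h1).symm, fun h1 => by rw [h1]⟩
      · simp only [mem_neighborSet, Hc, sc_inr_inr hn, Set.mem_insert_iff, Set.mem_singleton_iff,
          reduceCtorEq, false_or, Sum.inr.injEq]
        constructor
        · rintro (⟨h1, _⟩ | ⟨h1, h2⟩)
          · exact h1
          · exfalso
            have h3 : k = π i - 1 := by rw [h1]; abel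
            subst h3
            exact hp.1 hi h2
        · intro h1
          exact Or.inl ⟨h1, hi⟩
    rw [this]
    exact Set.ncard_pair (by simp)
  · have hi' : Odd (π i - 1 - v).val := by
      by_contra h3
      exact hi (hp.2 h3)
    have : (Hc π u v).neighborSet (.inr (π i)) = {.inl i, .inr (π i - 1)} := by
      ext a
      rcases a with k | k
      · simp only [mem_neighborSet, Hc, sc_inr_inl, Set.mem_insert_iff, Set.mem_singleton_iff,
          reduceCtorEq, or_false, Sum.inl.injEq]
        exact ⟨fun h1 => (hπ.1 h1).symm, fun h1 => by rw [h1]⟩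
      · simp only [mem_neighborSet, Hc, sc_inr_inr hn, Set.mem_insert_iff, Set.mem_singleton_iff,
          reduceCtorEq, false_or, Sum.inr.injEq]
        constructor
        · rintro (⟨h1, h2⟩ | ⟨h1, h2⟩)
          · exact absurd h2 hi
          · rw [h1]; abel
        · intro h1
          subst h1
          exact Or.inr ⟨by abel, hi'⟩
    rw [this]
    exact Set.ncard_pair (by simp)

open Classical in
/-- the path from `inl u` ends at `inr v` -/
theorem path_end (hn : 3 ≤ n) (ho : Odd n) (π : Fin n → Fin n) (hπ : Function.Bijective π)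
    (u v : Fin n) : (Hc π u v).Reachable (.inl u) (.inr v) := by
  let K : SimpleGraph (Fin n ⊕ Fin n) :=
    { Adj := fun a b => (Hc π u v).Adj a b ∧ (Hc π u v).Reachable (.inl u) a
      symm := ⟨fun a b h => ⟨h.1.symm, h.2.trans h.1.reachable⟩⟩
      loopless := ⟨fun a h => (Hc π u v).loopless.irrefl _ h.1⟩ }
  have hK : ∀ a, (Hc π u v).Reachable (.inl u) a → K.neighborSet a = (Hc π u v).neighborSet a := by
    intro a ha
    ext b
    exact ⟨fun h => h.1, fun h => ⟨h, ha⟩⟩
  have hdeg : ∀ a, K.degree a = (K.neighborSet a).ncard := by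
    intro a
    rw [← card_neighborSet_eq_degree, Set.ncard_eq_toFinset_card', Set.toFinset_card]
  have h1 : Odd (K.degree (.inl u)) := by
    rw [hdeg, hK _ (Reachable.refl _), nbr_inl_u hn ho, Set.ncard_singleton]
    exact odd_one
  obtain ⟨w, hwu, hw⟩ := K.exists_ne_odd_degree_of_exists_odd_degree _ h1
  have hr : (Hc π u v).Reachable (.inl u) w := by
    by_contra hr
    have h2 : K.neighborSet w = ∅ := by
      ext b
      exact ⟨fun h => (hr h.2).elim, fun h => h.elim⟩
    rw [hdeg, h2, Set.ncard_empty] at hw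
    exact absurd hw (by decide)
  rw [hdeg, hK w hr] at hw
  rcases w with i | j
  · have hi : i ≠ u := fun h => hwu (by rw [h])
    rw [nbr_inl hn π u v i hi] at hw
    exact absurd hw (by decide)
  · by_cases hj : j = v
    · subst hj
      exact hr
    · rw [nbr_inr hn π hπ u v j hj] at hw
      exact absurd hw (by decide)

end Pool.Agent.H57.TH
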