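import Mathlib
import Pool.Agent.H57.TH.Model

set_option autoImplicit false

/-!
Degrees in the graph `T(u, v)` (MP_a46c6f_co).
-/

namespace Pool.Agent.H57.TH

open SimpleGraph

variable {n : ℕ} [NeZero n]

theorem nbr2_inl (hn : 3 ≤ n) (π : Fin n → Fin n) (P Q : Fin n → Prop) (i : Fin n)
    (hp : P i ↔ ¬ P (i - 1)) : ((Sc π P Q).neighborSet (.inl i)).ncard = 2 := by
  by_cases hi : P i
  · have : (Sc π P Q).neighborSet (.inl i) = {.inr (π i), .inl (i + 1)} := by
      ext a
      rcases a with j | j
      · simp only [mem_neighborSet, sc_inl_inl hn, Set.mem_insert_iff, Set.mem_singleton_iff,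
          reduceCtorEq, false_or, Sum.inl.injEq]
        constructor
        · rintro (⟨h1, _⟩ | ⟨h1, h2⟩)
          · exact h1
          · exfalso
            have h3 : j = i - 1 := by rw [h1]; abel
            subst h3
            exact hp.1 hi h2
        · intro h1
          exact Or.inl ⟨h1, hi⟩
      · simp [mem_neighborSet, sc_inl_inr]
    rw [this]
    exact Set.ncard_pair (by simp)
  · have hi' : P (i - 1) := by
      by_contra h3
      exact hi (hp.2 h3)
    have : (Sc π P Q).neighborSet (.inl i) = {.inr (π i), .inl (i - 1)} := by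
      ext a
      rcases a with j | j
      · simp only [mem_neighborSet, sc_inl_inl hn, Set.mem_insert_iff, Set.mem_singleton_iff,
          reduceCtorEq, false_or, Sum.inl.injEq]
        constructor
        · rintro (⟨h1, h2⟩ | ⟨h1, h2⟩)
          · exact absurd h2 hi
          · rw [h1]; abel
        · intro h1
          subst h1
          exact Or.inr ⟨by abel, hi'⟩
      · simp [mem_neighborSet, sc_inl_inr]
    rw [this]
    exact Set.ncard_pair (by simp)

theorem nbr2_inr (hn : 3 ≤ n) (π : Fin n → Fin n) (hπ : Function.Bijective π)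
    (P Q : Fin n → Prop) (j : Fin n) (hp : Q j ↔ ¬ Q (j - 1)) :
    ((Sc π P Q).neighborSet (.inr j)).ncard = 2 := by
  obtain ⟨i, rfl⟩ := hπ.2 j
  by_cases hi : Q (π i)
  · have : (Sc π P Q).neighborSet (.inr (π i)) = {.inl i, .inr (π i + 1)} := by
      ext a
      rcases a with k | k
      · simp only [mem_neighborSet, sc_inr_inl, Set.mem_insert_iff, Set.mem_singleton_iff,
          reduceCtorEq, or_false, Sum.inl.injEq]
        exact ⟨fun h1 => (hπ.1 h1).symm, fun h1 => by rw [h1]⟩
      · simp only [mem_neighborSet, sc_inr_inr hn, Set.mem_insert_iff, Set.mem_singleton_iff,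
          reduceCtorEq, false_or, Sum.inr.injEq]
        constructor
        · rintro (⟨h1, _⟩ | ⟨h1, h2⟩)
          · exact h1
          · exfalso
            have h3 : k = π i - 1 := by rw [h1]; abel
            subst h3
            exact hp.1 hi h2
        · intro h1
          exact Or.inl ⟨h1, hi⟩
    rw [this]
    exact Set.ncard_pair (by simp)
  · have hi' : Q (π i - 1) := by
      by_contra h3
      exact hi (hp.2 h3)
    have : (Sc π P Q).neighborSet (.inr (π i)) = {.inl i, .inr (π i - 1)} := by
      ext a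
      rcases a with k | k
      · simp only [mem_neighborSet, sc_inr_inl, Set.mem_insert_iff, Set.mem_singleton_iff,
          reduceCtorEq, or_false, Sum.inl.injEq]
        exact ⟨fun h1 => (hπ.1 h1).symm, fun h1 => by rw [h1]⟩
      · simp only [mem_neighborSet, sc_inr_inr hn, Set.mem_insert_iff, Set.mem_singleton_iff,
          reduceCtorEq, false_or, Sum.inr.injEq]
        constructor
        · rintro (⟨h1, h2⟩ | ⟨h1, h2⟩)
          · exact absurd h2 hi
          · rw [h1]; abel
        · intro h1
          subst h1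
          exact Or.inr ⟨by abel, hi'⟩
    rw [this]
    exact Set.ncard_pair (by simp)

theorem sub_one_ne_add_one (hn : 3 ≤ n) (i : Fin n) : i - 1 ≠ i + 1 := by
  intro h
  refine add_two_ne hn (i + 1) i ?_ rfl
  rw [← h]; abel

theorem nbr3_inl (hn : 3 ≤ n) (π : Fin n → Fin n) (P Q : Fin n → Prop) (i : Fin n)
    (h1 : P i) (h2 : P (i - 1)) : ((Sc π P Q).neighborSet (.inl i)).ncard = 3 := by
  have : (Sc π P Q).neighborSet (.inl i) = {.inr (π i), .inl (i - 1), .inl (i + 1)} := by
    ext a
    rcases a with j | j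
    · simp only [mem_neighborSet, sc_inl_inl hn, Set.mem_insert_iff, Set.mem_singleton_iff,
        reduceCtorEq, false_or, Sum.inl.injEq]
      constructor
      · rintro (⟨h3, _⟩ | ⟨h3, _⟩)
        · exact Or.inr h3
        · left; rw [h3]; abel
      · rintro (h3 | h3)
        · subst h3
          exact Or.inr ⟨by abel, h2⟩
        · exact Or.inl ⟨h3, h1⟩
    · simp [mem_neighborSet, sc_inl_inr]
  rw [this, Set.ncard_insert_of_notMem (by simp) (Set.toFinite _), Set.ncard_pair]
  intro h
  exact sub_one_ne_add_one hn i (Sum.inl.inj h)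

theorem par_e (hn : 3 ≤ n) (u i : Fin n) (h : i ≠ u) :
    Even (i - u).val ↔ ¬ Even (i - 1 - u).val := by
  have := par hn u i h
  rw [← Nat.not_odd_iff_even, ← Nat.not_odd_iff_even, this]

theorem par_eu (hn : 3 ≤ n) (ho : Odd n) (u : Fin n) :
    Even (u - u).val ∧ Even (u - 1 - u).val := by
  have := par_u hn ho u
  rw [← Nat.not_odd_iff_even, ← Nat.not_odd_iff_even]
  exact this

theorem nbrT_inl (hn : 3 ≤ n) (π : Fin n → Fin n) (u v i : Fin n) (h : i ≠ u) :
    ((Tc π u v).neighborSet (.inl i)).ncard = 2 :=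
  nbr2_inl hn π _ _ i (par_e hn u i h)

theorem nbrT_inr (hn : 3 ≤ n) (π : Fin n → Fin n) (hπ : Function.Bijective π) (u v j : Fin n)
    (h : j ≠ v) : ((Tc π u v).neighborSet (.inr j)).ncard = 2 :=
  nbr2_inr hn π hπ _ _ j (par_e hn v j h)

theorem nbrT_inl_u (hn : 3 ≤ n) (ho : Odd n) (π : Fin n → Fin n) (u v : Fin n) :
    ((Tc π u v).neighborSet (.inl u)).ncard = 3 :=
  nbr3_inl hn π _ _ u (par_eu hn ho u).1 (par_eu hn ho u).2

open Classical in
/-- `inl u` and `inr v` lie in the same component of `T(u, v)` -/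
theorem path_endT (hn : 3 ≤ n) (ho : Odd n) (π : Fin n → Fin n) (hπ : Function.Bijective π)
    (u v : Fin n) : (Tc π u v).Reachable (.inl u) (.inr v) := by
  let K : SimpleGraph (Fin n ⊕ Fin n) :=
    { Adj := fun a b => (Tc π u v).Adj a b ∧ (Tc π u v).Reachable (.inl u) a
      symm := ⟨fun a b h => ⟨h.1.symm, h.2.trans h.1.reachable⟩⟩
      loopless := ⟨fun a h => (Tc π u v).loopless.irrefl _ h.1⟩ }
  have hK : ∀ a, (Tc π u v).Reachable (.inl u) a → K.neighborSet a = (Tc π u v).neighborSet a := by
    intro a ha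
    ext b
    exact ⟨fun h => h.1, fun h => ⟨h, ha⟩⟩
  have hdeg : ∀ a, K.degree a = (K.neighborSet a).ncard := by
    intro a
    rw [← card_neighborSet_eq_degree, Set.ncard_eq_toFinset_card', Set.toFinset_card]
  have h1 : Odd (K.degree (.inl u)) := by
    rw [hdeg, hK _ (Reachable.refl _), nbrT_inl_u hn ho]
    decide
  obtain ⟨w, hwu, hw⟩ := K.exists_ne_odd_degree_of_exists_odd_degree _ h1
  have hr : (Tc π u v).Reachable (.inl u) w := by
    by_contra hr
    have h2 : K.neighborSet w = ∅ := by
      ext b
      exact ⟨fun h => (hr h.2).elim, fun h => h.elim⟩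
    rw [hdeg, h2, Set.ncard_empty] at hw
    exact absurd hw (by decide)
  rw [hdeg, hK w hr] at hw
  rcases w with i | j
  · have hi : i ≠ u := fun h => hwu (by rw [h])
    rw [nbrT_inl hn π u v i hi] at hw
    exact absurd hw (by decide)
  · by_cases hj : j = v
    · subst hj
      exact hr
    · rw [nbrT_inr hn π hπ u v j hj] at hw
      exact absurd hw (by decide)

end Pool.Agent.H57.TH
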