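import Mathlib
import Pool.Agent.H57.TH.Theta
import Pool.Agent.H57.TH.Model2

set_option autoImplicit false

/-!
From the combinatorial model to removable circuits, both alternatives (MP_a46c6f_co).
-/

namespace Pool.Agent.H57.TH

open SimpleGraph Pool.Agent.H5.Goddyn Pool.Agent.H98 Pool.Agent.H98.TC

variable {V : Type*} {n : ℕ} [NeZero n]

/-- `e` identifies the vertices of `G` with `Fin n ⊕ Fin n`, such that the circuits are
`inl 0, inl 1, …` and `inr 0, inr 1, …` and `M` joins `inl i` to `inr (π i)`. -/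
structure Mdl (G : SimpleGraph V) (M : G.Subgraph) (π : Fin n → Fin n)
    (e : Fin n ⊕ Fin n ≃ V) : Prop where
  three : 3 ≤ n
  bij : Function.Bijective π
  adjl : ∀ i, G.Adj (e (.inl i)) (e (.inl (i + 1)))
  adjr : ∀ i, G.Adj (e (.inr i)) (e (.inr (i + 1)))
  mat : ∀ a b, M.Adj (e a) (e b) ↔ (∃ i, a = .inl i ∧ b = .inr (π i)) ∨
      ∃ i, a = .inr (π i) ∧ b = .inl i

theorem mdl_of_numbering {G : SimpleGraph V} {M C₁ C₂ : G.Subgraph}
    (h : IsPermutationGraph G M C₁ C₂) (ho : Odd n) {x y : Fin n → V} {π : Fin n → Fin n}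
    (hx : IsCyclicNumbering C₁ x) (hy : IsCyclicNumbering C₂ y)
    (hπ : ∀ i, M.Adj (x i) (y (π i))) : ∃ e : Fin n ⊕ Fin n ≃ V, Mdl G M π e := by
  have hn : 3 ≤ n := by
    have h1 : n ≠ 1 := by
      rintro rfl
      have h2 := hx.2.2 0
      have h3 : (0 : Fin 1) + 1 = 0 := Subsingleton.elim _ _
      rw [h3] at h2
      exact h2.ne rfl
    obtain ⟨k, hk⟩ := ho
    omega
  obtain ⟨hxi, hxr, hxa⟩ := hx
  obtain ⟨hyi, hyr, hya⟩ := hy
  have hMp := Subgraph.isPerfectMatching_iff.1 h.perfect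
  have hMu : ∀ a b c, M.Adj a b → M.Adj a c → b = c := by
    intro a b c hb hc
    obtain ⟨w, _, hw⟩ := hMp a
    exact (hw b hb).trans (hw c hc).symm
  have hx1 : ∀ i, x i ∈ C₁.verts := fun i => by rw [← hxr]; exact ⟨i, rfl⟩
  have hy1 : ∀ i, y i ∈ C₂.verts := fun i => by rw [← hyr]; exact ⟨i, rfl⟩
  have hxy : ∀ i j, x i ≠ y j := fun i j hij =>
    Set.disjoint_left.1 h.disjoint (hx1 i) (hij ▸ hy1 j)
  have hbij : Function.Bijective (Sum.elim x y) := by
    constructor
    · exact Function.Injective.sumElim hxi hyi hxy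
    · intro w
      rcases cover' h w with hw | hw
      · rw [← hxr] at hw
        obtain ⟨i, hi⟩ := hw
        exact ⟨.inl i, hi⟩
      · rw [← hyr] at hw
        obtain ⟨i, hi⟩ := hw
        exact ⟨.inr i, hi⟩
  let e : Fin n ⊕ Fin n ≃ V := Equiv.ofBijective _ hbij
  have hπi : Function.Injective π := by
    intro i j hij
    have h1 := (hπ i).symm
    have h2 := (hπ j).symm
    rw [← hij] at h2
    exact hxi (hMu _ _ _ h1 h2)
  have hπb : Function.Bijective π := Finite.injective_iff_bijective.1 hπi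
  refine ⟨e, hn, hπb, fun i => C₁.adj_sub (hxa i), fun i => C₂.adj_sub (hya i), ?_⟩
  intro a b
  constructor
  · intro hab
    rcases a with i | j
    · left
      refine ⟨i, rfl, ?_⟩
      exact e.injective (hMu _ _ _ hab (hπ i))
    · right
      obtain ⟨i, rfl⟩ := hπb.2 j
      refine ⟨i, rfl, ?_⟩
      exact e.injective (hMu _ _ _ hab (hπ i).symm)
  · rintro (⟨i, rfl, rfl⟩ | ⟨i, rfl, rfl⟩)
    · exact hπ i
    · exact (hπ i).symm

theorem Mdl.adj {G : SimpleGraph V} {M : G.Subgraph} {π : Fin n → Fin n}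
    {e : Fin n ⊕ Fin n ≃ V} (m : Mdl G M π e) {P Q : Fin n → Prop} {a b : Fin n ⊕ Fin n}
    (hab : (Sc π P Q).Adj a b) : G.Adj (e a) (e b) := by
  rcases a with i | i <;> rcases b with j | j
  · rw [sc_inl_inl m.three] at hab
    rcases hab with ⟨rfl, _⟩ | ⟨rfl, _⟩
    · exact m.adjl i
    · exact (m.adjl j).symm
  · rw [sc_inl_inr] at hab
    subst hab
    exact M.adj_sub ((m.mat _ _).2 (Or.inl ⟨i, rfl, rfl⟩))
  · rw [sc_inr_inl] at hab
    subst hab
    exact M.adj_sub ((m.mat _ _).2 (Or.inr ⟨j, rfl, rfl⟩))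
  · rw [sc_inr_inr m.three] at hab
    rcases hab with ⟨rfl, _⟩ | ⟨rfl, _⟩
    · exact m.adjr i
    · exact (m.adjr j).symm

theorem Mdl.sc_M {G : SimpleGraph V} {M : G.Subgraph} {π : Fin n → Fin n}
    {e : Fin n ⊕ Fin n ≃ V} (m : Mdl G M π e) {P Q : Fin n → Prop} {a b : Fin n ⊕ Fin n}
    (hab : M.Adj (e a) (e b)) : (Sc π P Q).Adj a b := by
  rcases (m.mat a b).1 hab with ⟨i, rfl, rfl⟩ | ⟨i, rfl, rfl⟩
  · exact (sc_inl_inr _ _).2 rfl
  · exact (sc_inr_inl _ _).2 rfl

/-- a common edge of `H(u, v)` and `T(u, v)` is in `M` -/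
theorem Mdl.common {G : SimpleGraph V} {M : G.Subgraph} {π : Fin n → Fin n}
    {e : Fin n ⊕ Fin n ≃ V} (m : Mdl G M π e) {u v : Fin n} {a b : Fin n ⊕ Fin n}
    (h1 : (Tc π u v).Adj a b) (h2 : (Hc π u v).Adj a b) : M.Adj (e a) (e b) := by
  have hn := m.three
  rw [m.mat]
  rcases a with i | i <;> rcases b with j | j
  · exfalso
    simp only [Tc, Hc, sc_inl_inl hn] at h1 h2
    rcases h1 with ⟨h3, h4⟩ | ⟨h3, h4⟩ <;> rcases h2 with ⟨h5, h6⟩ | ⟨h5, h6⟩
    · exact (Nat.not_even_iff_odd.2 h6) h4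
    · exact add_two_ne hn i j h3 h5
    · exact add_two_ne hn i j h5 h3
    · exact (Nat.not_even_iff_odd.2 h6) h4
  · simp only [Tc, sc_inl_inr] at h1
    subst h1
    exact Or.inl ⟨i, rfl, rfl⟩
  · simp only [Tc, sc_inr_inl] at h1
    subst h1
    exact Or.inr ⟨j, rfl, rfl⟩
  · exfalso
    simp only [Tc, Hc, sc_inr_inr hn] at h1 h2
    rcases h1 with ⟨h3, h4⟩ | ⟨h3, h4⟩ <;> rcases h2 with ⟨h5, h6⟩ | ⟨h5, h6⟩
    · exact (Nat.not_even_iff_odd.2 h6) h4
    · exact add_two_ne hn i j h3 h5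
    · exact add_two_ne hn i j h5 h3
    · exact (Nat.not_even_iff_odd.2 h6) h4

/-- general transfer: `K` is a graph on the model with all non-isolated vertices of degree `2`, `T` a
graph on the model, and no edge of `M` outside the component of `z` in `K` is a bridge of `T` -/
theorem Mdl.transfer [Finite V] {G : SimpleGraph V} {M C₁ C₂ : G.Subgraph}
    (h : IsPermutationGraph G M C₁ C₂) {π : Fin n → Fin n} {e : Fin n ⊕ Fin n ≃ V}
    (m : Mdl G M π e) (K T : SimpleGraph (Fin n ⊕ Fin n)) (z t : Fin n ⊕ Fin n)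
    (hKG : ∀ a b, K.Adj a b → G.Adj (e a) (e b)) (hTG : ∀ a b, T.Adj a b → G.Adj (e a) (e b))
    (hKd : ∀ w s, K.Adj w s → (K.neighborSet w).ncard = 2) (hzt : K.Adj z t)
    (hTK : ∀ a b, T.Adj a b → K.Adj a b → K.Reachable z a → M.Adj (e a) (e b))
    (hT : ∀ i, ¬ (K.Adj (.inl i) (.inr (π i)) ∧ K.Reachable z (.inl i)) →
      (T.deleteEdges {s(.inl i, .inr (π i))}).Reachable (.inl i) (.inr (π i))) :
    ∃ C : G.Subgraph, Removable G (wt M) C := by
  classical
  let K' : SimpleGraph V := K.comap e.symm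
  let T' : SimpleGraph V := T.comap e.symm
  have hKadj : ∀ a b, K'.Adj a b ↔ K.Adj (e.symm a) (e.symm b) := fun a b => Iff.rfl
  have hTadj : ∀ a b, T'.Adj a b ↔ T.Adj (e.symm a) (e.symm b) := fun a b => Iff.rfl
  have hK'G : K' ≤ G := by
    intro a b hab
    have h1 := hKG _ _ ((hKadj a b).1 hab)
    simpa using h1
  have hK'd : ∀ w s, K'.Adj w s → (K'.neighborSet w).ncard = 2 := by
    intro w s hws
    have h2 : K'.neighborSet w = e '' (K.neighborSet (e.symm w)) := by
      ext b
      constructor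
      · intro hb
        exact ⟨e.symm b, hb, e.apply_symm_apply b⟩
      · rintro ⟨b', hb', rfl⟩
        refine (hKadj _ _).2 ?_
        rw [e.symm_apply_apply]
        exact hb'
    rw [h2, Set.ncard_image_of_injective _ e.injective]
    exact hKd _ _ ((hKadj _ _).1 hws)
  have hK'z : K'.Adj (e z) (e t) := by
    rw [hKadj]
    simpa using hzt
  have hreach : ∀ a b, K.Reachable a b ↔ K'.Reachable (e a) (e b) := by
    intro a b
    constructor
    · intro hab
      exact hab.map (⟨e, fun {a b} h1 => by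
        rw [hKadj]; simpa using h1⟩ : K →g K')
    · intro hab
      have := hab.map (⟨e.symm, fun {a b} h1 => h1⟩ : K' →g K)
      simpa using this
  have hCc := cmp_circuit hK'G hK'z hK'd
  have hCadj : ∀ a b, (cmp K' hK'G (e z)).Adj (e a) (e b) ↔ K.Adj a b ∧ K.Reachable z a := by
    intro a b
    show K'.Adj (e a) (e b) ∧ K'.Reachable (e z) (e a) ↔ _
    rw [hKadj, ← hreach]
    simp
  refine ⟨cmp K' hK'G (e z), removable_of_bridgeless G M C₁ C₂ h T' _ hCc ?_ ?_ ?_⟩
  · intro a b hab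
    have h1 := hTG _ _ ((hTadj a b).1 hab)
    simpa using h1
  · intro a b hab hcab
    obtain ⟨a', rfl⟩ := e.surjective a
    obtain ⟨b', rfl⟩ := e.surjective b
    have h1 := (hTadj _ _).1 hab
    simp only [Equiv.symm_apply_apply] at h1
    have h2 := (hCadj _ _).1 hcab
    exact hTK a' b' h1 h2.1 h2.2
  · have key : ∀ i, ¬ (K.Adj (.inl i) (.inr (π i)) ∧ K.Reachable z (.inl i)) →
        (T'.deleteEdges {s(e (.inl i), e (.inr (π i)))}).Reachable (e (.inl i))
          (e (.inr (π i))) := by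
      intro i hi
      have h1 := hT i hi
      let f : (T.deleteEdges {s(.inl i, .inr (π i))}) →g
          (T'.deleteEdges {s(e (.inl i), e (.inr (π i)))}) :=
        { toFun := e
          map_rel' := by
            intro a b hab
            rw [deleteEdges_adj] at hab ⊢
            refine ⟨?_, ?_⟩
            · rw [hTadj]
              simp only [Equiv.symm_apply_apply]
              exact hab.1
            · intro hh
              apply hab.2
              rw [Set.mem_singleton_iff] at hh ⊢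
              have h2 : Sym2.map e s(a, b) = Sym2.map e s(.inl i, .inr (π i)) := hh
              exact Sym2.map.injective e.injective h2 }
      exact h1.map f
    intro a b hab hcab
    rw [isBridge_iff, not_not]
    obtain ⟨a', rfl⟩ := e.surjective a
    obtain ⟨b', rfl⟩ := e.surjective b
    rcases (m.mat _ _).1 hab with ⟨i, rfl, rfl⟩ | ⟨i, rfl, rfl⟩
    · exact key i (fun hh => hcab ((hCadj _ _).2 hh))
    · rw [Sym2.eq_swap]
      refine (key i (fun hh => hcab ((hCadj _ _).2 ⟨hh.1.symm, ?_⟩))).symm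
      exact hh.2.trans hh.1.reachable

/-- `T(u, v)` without bridges in `M` and a circuit of `H(u, v)` -/
theorem Mdl.thH [Finite V] {G : SimpleGraph V} {M C₁ C₂ : G.Subgraph}
    (h : IsPermutationGraph G M C₁ C₂) (ho : Odd n) {π : Fin n → Fin n}
    {e : Fin n ⊕ Fin n ≃ V} (m : Mdl G M π e) (u v : Fin n) (z : Fin n ⊕ Fin n)
    (hz : ¬ (Hc π u v).Reachable (.inl u) z)
    (hT : ∀ i, ¬ (Tc π u v).IsBridge s(.inl i, .inr (π i))) :
    ∃ C : G.Subgraph, Removable G (wt M) C := by
  have hn := m.three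
  let Kc : SimpleGraph (Fin n ⊕ Fin n) :=
    { Adj := fun a b => (Hc π u v).Adj a b ∧ ¬ (Hc π u v).Reachable (.inl u) a
      symm := ⟨fun a b h => ⟨h.1.symm, fun h1 => h.2 (h1.trans h.1.symm.reachable)⟩⟩
      loopless := ⟨fun a h => (Hc π u v).loopless.irrefl _ h.1⟩ }
  have hdeg : ∀ a, ¬ (Hc π u v).Reachable (.inl u) a →
      ((Hc π u v).neighborSet a).ncard = 2 := by
    intro a ha
    rcases a with i | j
    · refine nbr_inl hn π u v i ?_
      rintro rfl
      exact ha (Reachable.refl _)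
    · refine nbr_inr hn π m.bij u v j ?_
      rintro rfl
      exact ha (path_end hn ho π m.bij u j)
  obtain ⟨t, ht⟩ : ((Hc π u v).neighborSet z).Nonempty := by
    apply Set.nonempty_of_ncard_ne_zero
    rw [hdeg z hz]
    omega
  refine m.transfer h Kc (Tc π u v) z t (fun a b hab => m.adj hab.1) (fun a b hab => m.adj hab)
    ?_ ⟨ht, hz⟩ (fun a b hab hk _ => m.common hab hk.1) ?_
  · intro w s hws
    have h2 : Kc.neighborSet w = (Hc π u v).neighborSet w := by
      ext b
      exact ⟨fun hb => hb.1, fun hb => ⟨hb, hws.2⟩⟩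
    rw [h2]
    exact hdeg _ hws.2
  · intro i _
    have := hT i
    rwa [isBridge_iff, not_not] at this

/-- `T(u, v)` without bridges in `M` and with a circuit -/
theorem Mdl.thT [Finite V] {G : SimpleGraph V} {M C₁ C₂ : G.Subgraph}
    (h : IsPermutationGraph G M C₁ C₂) (ho : Odd n) {π : Fin n → Fin n}
    {e : Fin n ⊕ Fin n ≃ V} (m : Mdl G M π e) (u v : Fin n) (z : Fin n ⊕ Fin n)
    (hz : ¬ (Tc π u v).Reachable (.inl u) z)
    (hT : ∀ i, ¬ (Tc π u v).IsBridge s(.inl i, .inr (π i))) :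
    ∃ C : G.Subgraph, Removable G (wt M) C := by
  have hn := m.three
  let Kc : SimpleGraph (Fin n ⊕ Fin n) :=
    { Adj := fun a b => (Tc π u v).Adj a b ∧ (Tc π u v).Reachable z a
      symm := ⟨fun a b h => ⟨h.1.symm, h.2.trans h.1.reachable⟩⟩
      loopless := ⟨fun a h => (Tc π u v).loopless.irrefl _ h.1⟩ }
  let T' : SimpleGraph (Fin n ⊕ Fin n) :=
    { Adj := fun a b => (Tc π u v).Adj a b ∧ (¬ (Tc π u v).Reachable z a ∨ M.Adj (e a) (e b))
      symm := ⟨fun a b h => ⟨h.1.symm, h.2.imp (fun h1 h2 => h1 (h2.trans h.1.symm.reachable))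
        (fun h1 => h1.symm)⟩⟩
      loopless := ⟨fun a h => (Tc π u v).loopless.irrefl _ h.1⟩ }
  have hdeg : ∀ a, (Tc π u v).Reachable z a → ((Tc π u v).neighborSet a).ncard = 2 := by
    intro a ha
    rcases a with i | j
    · refine nbrT_inl hn π u v i ?_
      rintro rfl
      exact hz ha.symm
    · refine nbrT_inr hn π m.bij u v j ?_
      rintro rfl
      exact hz ((path_endT hn ho π m.bij u j).trans ha.symm)
  obtain ⟨t, ht⟩ : ((Tc π u v).neighborSet z).Nonempty := by
    apply Set.nonempty_of_ncard_ne_zero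
    rw [hdeg z (Reachable.refl _)]
    omega
  have hKz : ∀ a, Kc.Reachable z a ↔ (Tc π u v).Reachable z a := by
    intro a
    constructor
    · intro ha
      exact ha.mono (show Kc ≤ Tc π u v from fun a b hab => hab.1)
    · intro ha
      obtain ⟨p⟩ := ha
      have key : ∀ {a b : Fin n ⊕ Fin n} (p : (Tc π u v).Walk a b),
          (Tc π u v).Reachable z a → Kc.Reachable a b := by
        intro a b p
        induction p with
        | nil => intro _; exact Reachable.refl _
        | cons h1 p ih =>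
          intro ha
          exact (Adj.reachable (show Kc.Adj _ _ from ⟨h1, ha⟩)).trans
            (ih (ha.trans h1.reachable))
      exact key p (Reachable.refl _)
  refine m.transfer h Kc T' z t (fun a b hab => m.adj hab.1) (fun a b hab => m.adj hab.1)
    ?_ ⟨ht, Reachable.refl _⟩ ?_ ?_
  · intro w s hws
    have h2 : Kc.neighborSet w = (Tc π u v).neighborSet w := by
      ext b
      exact ⟨fun hb => hb.1, fun hb => ⟨hb, hws.2⟩⟩
    rw [h2]
    exact hdeg _ hws.2
  · rintro a b ⟨_, h1 | h1⟩ hk _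
    · exact absurd hk.2 h1
    · exact h1
  · intro i hi
    have h1 := hT i
    rw [isBridge_iff, not_not] at h1
    have h2 : ¬ (Tc π u v).Reachable z (.inl i) := by
      intro h3
      exact hi ⟨⟨(sc_inl_inr _ _).2 rfl, h3⟩, (hKz _).2 h3⟩
    obtain ⟨p⟩ := h1
    have key : ∀ {a b : Fin n ⊕ Fin n}
        (p : ((Tc π u v).deleteEdges {s(Sum.inl i, Sum.inr (π i))}).Walk a b),
        ¬ (Tc π u v).Reachable z a →
        (T'.deleteEdges {s(.inl i, .inr (π i))}).Reachable a b := by
      intro a b p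
      induction p with
      | nil => intro _; exact Reachable.refl _
      | @cons a c b h1 p ih =>
        intro ha
        have h3 : (Tc π u v).Adj a c := (deleteEdges_le _) h1
        have h4 : (T'.deleteEdges {s(.inl i, .inr (π i))}).Adj a c := by
          rw [deleteEdges_adj] at h1 ⊢
          exact ⟨⟨h1.1, Or.inl ha⟩, h1.2⟩
        exact h4.reachable.trans (ih (fun h5 => ha (h5.trans h3.symm.reachable)))
    exact key p h2

end Pool.Agent.H57.TH
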