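import Mathlib
import Pool.Agent.H57.TH.TH1b
import Pool.Agent.H62.TH.Defs

set_option autoImplicit false

/-!
Conversion between the two forms of the model (MP_a46c6f_co).
-/

namespace Pool.Agent.H57.TH

open SimpleGraph Pool.Agent.H5.Goddyn Pool.Agent.H98 Pool.Agent.H98.TC Pool.Agent.H62.TH

section

variable {n : ℕ} [NeZero n]

/-- helper62's partner function on `Fin n` -/
def rf (a i : Fin n) : Fin n :=
  if i = a then a else if (i - a).val % 2 = 1 then i + 1 else i - 1

theorem val_self (a : Fin n) : (a - a).val = 0 := by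
  rw [sub_self]; rfl

theorem rf_h (hn : 3 ≤ n) (ho : Odd n) (a i j : Fin n) :
    (i ≠ j ∧ rf a i = j ∧ rf a j = i) ↔
      (j = i + 1 ∧ Odd (i - a).val) ∨ (i = j + 1 ∧ Odd (j - a).val) := by
  have hu := par_u hn ho a
  constructor
  · rintro ⟨hij, h1, h2⟩
    have hia : i ≠ a := by
      rintro rfl
      unfold rf at h1
      rw [if_pos rfl] at h1
      exact hij h1
    have hja : j ≠ a := by
      rintro rfl
      unfold rf at h2
      rw [if_pos rfl] at h2
      exact hij h2.symm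
    unfold rf at h1 h2
    rw [if_neg hia] at h1
    rw [if_neg hja] at h2
    by_cases hi : (i - a).val % 2 = 1
    · rw [if_pos hi] at h1
      exact Or.inl ⟨h1.symm, Nat.odd_iff.2 hi⟩
    · rw [if_neg hi] at h1
      by_cases hj : (j - a).val % 2 = 1
      · rw [if_pos hj] at h2
        exact Or.inr ⟨h2.symm, Nat.odd_iff.2 hj⟩
      · rw [if_neg hj] at h2
        exfalso
        refine sub_one_ne_add_one hn i ?_
        rw [h1, ← h2]; abel
  · have key : ∀ i j : Fin n, j = i + 1 → Odd (i - a).val → i ≠ j ∧ rf a i = j ∧ rf a j = i := by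
      intro i j h1 h2
      have hia : i ≠ a := by
        rintro rfl
        exact hu.1 h2
      have hja : j ≠ a := by
        rintro rfl
        apply hu.2
        have : i = j - 1 := by rw [h1]; abel
        rw [← this]
        exact h2
      have hji : j - 1 = i := by rw [h1]; abel
      have h3 := par hn a j hja
      rw [hji] at h3
      have h4 : ¬ Odd (j - a).val := fun h5 => (h3.1 h5) h2
      refine ⟨?_, ?_, ?_⟩
      · rw [h1]
        exact (add_one_ne hn i).symm
      · unfold rf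
        rw [if_neg hia, if_pos (Nat.odd_iff.1 h2), h1]
      · unfold rf
        rw [if_neg hja, if_neg (fun h5 => h4 (Nat.odd_iff.2 h5)), hji]
    rintro (⟨h1, h2⟩ | ⟨h1, h2⟩)
    · exact key i j h1 h2
    · obtain ⟨h3, h4, h5⟩ := key j i h1 h2
      exact ⟨h3.symm, h5, h4⟩

theorem rf_t (hn : 3 ≤ n) (ho : Odd n) (a i j : Fin n) :
    (i ≠ j ∧ (j = i + 1 ∨ i = j + 1) ∧ ¬ (rf a i = j) ∧ ¬ (rf a j = i)) ↔
      (j = i + 1 ∧ Even (i - a).val) ∨ (i = j + 1 ∧ Even (j - a).val) := by
  constructor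
  · have key : ∀ i j : Fin n, j = i + 1 → i ≠ j → ¬ (rf a i = j) → Even (i - a).val := by
      intro i j h1 hij h2
      by_contra h3
      rw [Nat.not_even_iff_odd] at h3
      have h4 := (rf_h hn ho a i j).2 (Or.inl ⟨h1, h3⟩)
      exact h2 h4.2.1
    rintro ⟨hij, h1 | h1, h2, h3⟩
    · exact Or.inl ⟨h1, key i j h1 hij h2⟩
    · exact Or.inr ⟨h1, key j i h1 hij.symm h3⟩
  · have key : ∀ i j : Fin n, j = i + 1 → Even (i - a).val →
        i ≠ j ∧ ¬ (rf a i = j) ∧ ¬ (rf a j = i) := by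
      intro i j h1 h2
      have hij : i ≠ j := by
        rw [h1]
        exact (add_one_ne hn i).symm
      have h2' : ¬ (i - a).val % 2 = 1 := by
        rw [← Nat.odd_iff, Nat.not_odd_iff_even]
        exact h2
      have hji : j - 1 = i := by rw [h1]; abel
      refine ⟨hij, ?_, ?_⟩
      · intro h3
        unfold rf at h3
        by_cases hia : i = a
        · rw [if_pos hia] at h3
          exact hij (hia.trans h3)
        · rw [if_neg hia, if_neg h2'] at h3
          apply sub_one_ne_add_one hn i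
          rw [h3, h1]
      · intro h3
        unfold rf at h3
        by_cases hja : j = a
        · rw [if_pos hja] at h3
          exact hij (h3.symm.trans hja.symm)
        · have h4 := par hn a j hja
          rw [hji] at h4
          have h5 : Odd (j - a).val := h4.2 (by rw [Nat.not_odd_iff_even]; exact h2)
          rw [if_neg hja, if_pos (Nat.odd_iff.1 h5)] at h3
          exact add_two_ne hn i j h1 h3.symm
    rintro (⟨h1, h2⟩ | ⟨h1, h2⟩)
    · obtain ⟨h3, h4, h5⟩ := key i j h1 h2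
      exact ⟨h3, Or.inl h1, h4, h5⟩
    · obtain ⟨h3, h4, h5⟩ := key j i h1 h2
      exact ⟨h3.symm, Or.inr h1, h5, h4⟩

theorem hc_ll (hn : 3 ≤ n) (π : Fin n → Fin n) (u v i j : Fin n) :
    (Hc π u v).Adj (.inl i) (.inl j) ↔
      (j = i + 1 ∧ Odd (i - u).val) ∨ (i = j + 1 ∧ Odd (j - u).val) := sc_inl_inl hn i j

theorem hc_rr (hn : 3 ≤ n) (π : Fin n → Fin n) (u v i j : Fin n) :
    (Hc π u v).Adj (.inr i) (.inr j) ↔
      (j = i + 1 ∧ Odd (i - v).val) ∨ (i = j + 1 ∧ Odd (j - v).val) := sc_inr_inr hn i j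

theorem tc_ll (hn : 3 ≤ n) (π : Fin n → Fin n) (u v i j : Fin n) :
    (Tc π u v).Adj (.inl i) (.inl j) ↔
      (j = i + 1 ∧ Even (i - u).val) ∨ (i = j + 1 ∧ Even (j - u).val) := sc_inl_inl hn i j

theorem tc_rr (hn : 3 ≤ n) (π : Fin n → Fin n) (u v i j : Fin n) :
    (Tc π u v).Adj (.inr i) (.inr j) ↔
      (j = i + 1 ∧ Even (i - v).val) ∨ (i = j + 1 ∧ Even (j - v).val) := sc_inr_inr hn i j

end

theorem HG_eq (k : ℕ) (hn : 3 ≤ k + 1) (ho : Odd (k + 1)) (π : Equiv.Perm (ZMod (k + 1)))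
    (a b : ZMod (k + 1)) : (HG π a b : SimpleGraph (Fin (k + 1) ⊕ Fin (k + 1))) =
      Hc (n := k + 1) (fun i => π i) a b := by
  ext p q
  rcases p with i | i <;> rcases q with j | j
  · exact Iff.trans (rf_h hn ho a i j) (hc_ll hn _ a b i j).symm
  · exact (sc_inl_inr i j).symm
  · exact (sc_inr_inl j i).symm
  · exact Iff.trans (rf_h hn ho b i j) (hc_rr hn _ a b i j).symm

theorem TG_eq (k : ℕ) (hn : 3 ≤ k + 1) (ho : Odd (k + 1)) (π : Equiv.Perm (ZMod (k + 1)))
    (a b : ZMod (k + 1)) : (TG π a b : SimpleGraph (Fin (k + 1) ⊕ Fin (k + 1))) =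
      Tc (n := k + 1) (fun i => π i) a b := by
  ext p q
  rcases p with i | i <;> rcases q with j | j
  · exact Iff.trans (rf_t hn ho a i j) (tc_ll hn _ a b i j).symm
  · exact (sc_inl_inr i j).symm
  · exact (sc_inr_inl j i).symm
  · exact Iff.trans (rf_t hn ho b i j) (tc_rr hn _ a b i j).symm

/-- TH1 in the form of helper62 -/
theorem th1_H62 {V : Type*} [Finite V] {G : SimpleGraph V} {M C₁ C₂ : G.Subgraph}
    (h : IsPermutationGraph G M C₁ C₂) {n : ℕ} [NeZero n] {x y : ZMod n → V}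
    {π : Equiv.Perm (ZMod n)} (hN : IsNumbered G M n x y π) (hodd : Odd n) (hg : Good π) :
    ∃ C : G.Subgraph, Removable G (wt M) C := by
  classical
  obtain ⟨k, rfl⟩ : ∃ k, n = k + 1 := ⟨n - 1, by
    have := NeZero.pos n
    omega⟩
  have hn := hN.three
  obtain ⟨a, b, hB, hc⟩ := hg
  have hbij : Function.Bijective (Sum.elim x y : Fin (k + 1) ⊕ Fin (k + 1) → V) := by
    constructor
    · exact Function.Injective.sumElim hN.injx hN.injy hN.disj
    · intro w
      rcases hN.cover w with ⟨i, hi⟩ | ⟨i, hi⟩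
      · exact ⟨.inl i, hi⟩
      · exact ⟨.inr i, hi⟩
  let e : Fin (k + 1) ⊕ Fin (k + 1) ≃ V := Equiv.ofBijective _ hbij
  have m : Mdl (n := k + 1) G M (fun i => π i) e := by
    refine ⟨hn, π.bijective, fun (i : ZMod (k + 1)) => (hN.adjx i (i + 1)).2 (Or.inl rfl),
      fun (i : ZMod (k + 1)) => (hN.adjy i (i + 1)).2 (Or.inl rfl), ?_⟩
    intro p q
    constructor
    · intro hpq
      obtain ⟨i, ⟨h1, h2⟩ | ⟨h1, h2⟩⟩ := (hN.mat _ _).1 hpq
      · exact Or.inl ⟨i, e.injective h1, e.injective h2⟩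
      · exact Or.inr ⟨i, e.injective h1, e.injective h2⟩
    · rintro (⟨i, rfl, rfl⟩ | ⟨i, rfl, rfl⟩)
      · exact (hN.mat _ _).2 ⟨i, Or.inl ⟨rfl, rfl⟩⟩
      · exact (hN.mat _ _).2 ⟨i, Or.inr ⟨rfl, rfl⟩⟩
  have hT : ∀ i, ¬ (Tc (n := k + 1) (fun i => π i) a b).IsBridge
      s(.inl i, .inr ((fun i => π i) i)) := by
    intro i
    have h1 := TG_eq k hn hodd π a b
    rw [← h1]
    refine hB _ ?_
    show tadj π a b (.inl i) (.inr (π i))
    rfl
  rw [not_and_or] at hc
  rcases hc with hc | hc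
  · have h1 := HG_eq k hn hodd π a b
    have hz : ∃ z, ¬ (Hc (n := k + 1) (fun i => π i) a b).Reachable (.inl a) z := by
      by_contra hcon
      push Not at hcon
      apply hc
      have h2 : (Hc (n := k + 1) (fun i => π i) a b).Connected := by
        rw [connected_iff]
        exact ⟨fun p q => (hcon p).symm.trans (hcon q), ⟨.inl a⟩⟩
      rw [← h1] at h2
      exact h2
    obtain ⟨z, hz⟩ := hz
    exact m.thH h hodd a b z hz hT
  · have h1 := TG_eq k hn hodd π a b
    have hz : ∃ z, ¬ (Tc (n := k + 1) (fun i => π i) a b).Reachable (.inl a) z := by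
      by_contra hcon
      push Not at hcon
      apply hc
      have h2 : (Tc (n := k + 1) (fun i => π i) a b).Connected := by
        rw [connected_iff]
        exact ⟨fun p q => (hcon p).symm.trans (hcon q), ⟨.inl a⟩⟩
      rw [← h1] at h2
      exact h2
    obtain ⟨z, hz⟩ := hz
    exact m.thT h hodd a b z hz hT

end Pool.Agent.H57.TH
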