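import Mathlib
import Pool.Agent.H57.TH.Theta
import Pool.Agent.H57.TH.Model

set_option autoImplicit false

/-!
From the combinatorial model to removable circuits (MP_a46c6f_co).
-/

namespace Pool.Agent.H57.TH

open SimpleGraph Pool.Agent.H5.Goddyn Pool.Agent.H98 Pool.Agent.H98.TC

variable {V : Type*} {n : ℕ} [NeZero n]

theorem th1 [Finite V] (G : SimpleGraph V) (M C₁ C₂ : G.Subgraph)
    (h : IsPermutationGraph G M C₁ C₂) (ho : Odd n) (x y : Fin n → V) (π : Fin n → Fin n)
    (hx : IsCyclicNumbering C₁ x) (hy : IsCyclicNumbering C₂ y) (hπ : ∀ i, M.Adj (x i) (y (π i)))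
    (u v : Fin n) (z : Fin n ⊕ Fin n) (hz : ¬ (Hc π u v).Reachable (.inl u) z)
    (hT : ∀ i, ¬ (Tc π u v).IsBridge s(.inl i, .inr (π i))) :
    ∃ C : G.Subgraph, Removable G (wt M) C := by
  classical
  -- `n ≥ 3`
  have hn : 3 ≤ n := by
    have h1 : n ≠ 1 := by
      rintro rfl
      have h2 := hx.2.2 0
      have h3 : (0 : Fin 1) + 1 = 0 := Subsingleton.elim _ _
      rw [h3] at h2
      exact h2.ne rfl
    obtain ⟨k, hk⟩ := ho
    omega
  obtain ⟨hxi, hxr, hxa⟩ := hx
  obtain ⟨hyi, hyr, hya⟩ := hy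
  have hMp := Subgraph.isPerfectMatching_iff.1 h.perfect
  have hMu : ∀ a b c, M.Adj a b → M.Adj a c → b = c := by
    intro a b c hb hc
    obtain ⟨w, _, hw⟩ := hMp a
    exact (hw b hb).trans (hw c hc).symm
  have hx1 : ∀ i, x i ∈ C₁.verts := fun i => by rw [← hxr]; exact ⟨i, rfl⟩
  have hy1 : ∀ i, y i ∈ C₂.verts := fun i => by rw [← hyr]; exact ⟨i, rfl⟩
  have hxy : ∀ i j, x i ≠ y j := fun i j hij =>
    Set.disjoint_left.1 h.disjoint (hx1 i) (hij ▸ hy1 j)
  have hbij : Function.Bijective (Sum.elim x y) := by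
    constructor
    · exact Function.Injective.sumElim hxi hyi hxy
    · intro w
      rcases cover' h w with hw | hw
      · rw [← hxr] at hw
        obtain ⟨i, hi⟩ := hw
        exact ⟨.inl i, hi⟩
      · rw [← hyr] at hw
        obtain ⟨i, hi⟩ := hw
        exact ⟨.inr i, hi⟩
  let e : Fin n ⊕ Fin n ≃ V := Equiv.ofBijective _ hbij
  have he1 : ∀ i, e (.inl i) = x i := fun i => rfl
  have he2 : ∀ i, e (.inr i) = y i := fun i => rfl
  have hπi : Function.Injective π := by
    intro i j hij
    have h1 := (hπ i).symm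
    have h2 := (hπ j).symm
    rw [← hij] at h2
    exact hxi (hMu _ _ _ h1 h2)
  have hπb : Function.Bijective π := Finite.injective_iff_bijective.1 hπi
  -- edges of the model are edges of `G`
  have hSG : ∀ (P Q : Fin n → Prop) a b, (Sc π P Q).Adj a b → G.Adj (e a) (e b) := by
    intro P Q a b hab
    rcases a with i | i <;> rcases b with j | j
    · rw [sc_inl_inl hn] at hab
      rcases hab with ⟨rfl, _⟩ | ⟨rfl, _⟩
      · exact C₁.adj_sub (hxa i)
      · exact (C₁.adj_sub (hxa j)).symm
    · rw [sc_inl_inr] at hab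
      subst hab
      exact M.adj_sub (hπ i)
    · rw [sc_inr_inl] at hab
      subst hab
      exact (M.adj_sub (hπ j)).symm
    · rw [sc_inr_inr hn] at hab
      rcases hab with ⟨rfl, _⟩ | ⟨rfl, _⟩
      · exact C₂.adj_sub (hya i)
      · exact (C₂.adj_sub (hya j)).symm
  -- the edges of `M`
  have hMe : ∀ a b, M.Adj (e a) (e b) → (∃ i, a = .inl i ∧ b = .inr (π i)) ∨
      ∃ i, a = .inr (π i) ∧ b = .inl i := by
    intro a b hab
    rcases a with i | j
    · left
      refine ⟨i, rfl, ?_⟩
      exact e.injective (hMu _ _ _ hab (hπ i))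
    · right
      obtain ⟨i, rfl⟩ := hπb.2 j
      refine ⟨i, rfl, ?_⟩
      exact e.injective (hMu _ _ _ hab (hπ i).symm)
  let T : SimpleGraph V := (Tc π u v).comap e.symm
  have hTadj : ∀ a b, T.Adj a b ↔ (Tc π u v).Adj (e.symm a) (e.symm b) := fun a b => Iff.rfl
  -- the circuit
  let Kc : SimpleGraph (Fin n ⊕ Fin n) :=
    { Adj := fun a b => (Hc π u v).Adj a b ∧ ¬ (Hc π u v).Reachable (.inl u) a
      symm := ⟨fun a b h => ⟨h.1.symm, fun h1 => h.2 (h1.trans h.1.symm.reachable)⟩⟩
      loopless := ⟨fun a h => (Hc π u v).loopless.irrefl _ h.1⟩ }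
  let K : SimpleGraph V := Kc.comap e.symm
  have hKadj : ∀ a b, K.Adj a b ↔ Kc.Adj (e.symm a) (e.symm b) := fun a b => Iff.rfl
  have hKG : K ≤ G := by
    intro a b hab
    have h1 := hSG _ _ _ _ ((hKadj a b).1 hab).1
    simpa using h1
  have hdeg : ∀ a, ¬ (Hc π u v).Reachable (.inl u) a →
      ((Hc π u v).neighborSet a).ncard = 2 := by
    intro a ha
    rcases a with i | j
    · refine nbr_inl hn π u v i ?_
      rintro rfl
      exact ha (Reachable.refl _)
    · refine nbr_inr hn π hπb u v j ?_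
      rintro rfl
      exact ha (path_end hn ho π hπb u j)
  have hKdeg : ∀ w t, K.Adj w t → (K.neighborSet w).ncard = 2 := by
    intro w t hwt
    have h1 := ((hKadj w t).1 hwt).2
    have h2 : K.neighborSet w = e '' ((Hc π u v).neighborSet (e.symm w)) := by
      ext b
      constructor
      · intro hb
        exact ⟨e.symm b, hb.1, e.apply_symm_apply b⟩
      · rintro ⟨b', hb', rfl⟩
        refine (hKadj _ _).2 ⟨?_, h1⟩
        rw [e.symm_apply_apply]
        exact hb'
    rw [h2, Set.ncard_image_of_injective _ e.injective]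
    exact hdeg _ h1
  obtain ⟨t, ht⟩ : ((Hc π u v).neighborSet z).Nonempty := by
    apply Set.nonempty_of_ncard_ne_zero
    rw [hdeg z hz]
    omega
  have hKz : K.Adj (e z) (e t) := by
    rw [hKadj]
    simp only [Equiv.symm_apply_apply]
    exact ⟨ht, hz⟩
  have hCc := cmp_circuit hKG hKz hKdeg
  refine ⟨cmp K hKG (e z), removable_of_bridgeless G M C₁ C₂ h T _ hCc ?_ ?_ ?_⟩
  · intro a b hab
    have h1 := hSG _ _ _ _ ((hTadj a b).1 hab)
    simpa using h1
  · intro a b hab hcab
    have h1 := (hTadj a b).1 hab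
    have h2 : (Hc π u v).Adj (e.symm a) (e.symm b) := ((hKadj a b).1 hcab.1).1
    obtain ⟨a', rfl⟩ := e.surjective a
    obtain ⟨b', rfl⟩ := e.surjective b
    simp only [Equiv.symm_apply_apply] at h1 h2
    rcases a' with i | i <;> rcases b' with j | j
    · exfalso
      simp only [Tc, Hc, sc_inl_inl hn] at h1 h2
      rcases h1 with ⟨h3, h4⟩ | ⟨h3, h4⟩ <;> rcases h2 with ⟨h5, h6⟩ | ⟨h5, h6⟩
      · exact (Nat.not_even_iff_odd.2 h6) h4
      · exact add_two_ne hn i j h3 h5
      · exact add_two_ne hn i j h5 h3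
      · exact (Nat.not_even_iff_odd.2 h6) h4
    · simp only [Tc, sc_inl_inr] at h1
      subst h1
      exact hπ i
    · simp only [Tc, sc_inr_inl] at h1
      subst h1
      exact (hπ j).symm
    · exfalso
      simp only [Tc, Hc, sc_inr_inr hn] at h1 h2
      rcases h1 with ⟨h3, h4⟩ | ⟨h3, h4⟩ <;> rcases h2 with ⟨h5, h6⟩ | ⟨h5, h6⟩
      · exact (Nat.not_even_iff_odd.2 h6) h4
      · exact add_two_ne hn i j h3 h5
      · exact add_two_ne hn i j h5 h3
      · exact (Nat.not_even_iff_odd.2 h6) h4
  · -- no edge of `M` is a bridge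
    have key : ∀ i, (T.deleteEdges {s(x i, y (π i))}).Reachable (x i) (y (π i)) := by
      intro i
      have h1 := hT i
      rw [isBridge_iff, not_not] at h1
      let f : ((Tc π u v).deleteEdges {s(.inl i, .inr (π i))}) →g
          (T.deleteEdges {s(x i, y (π i))}) :=
        { toFun := e
          map_rel' := by
            intro a b hab
            rw [deleteEdges_adj] at hab ⊢
            refine ⟨?_, ?_⟩
            · rw [hTadj]
              simp only [Equiv.symm_apply_apply]
              exact hab.1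
            · intro hh
              apply hab.2
              rw [Set.mem_singleton_iff] at hh ⊢
              have h2 : Sym2.map e s(a, b) = Sym2.map e s(.inl i, .inr (π i)) := hh
              exact Sym2.map.injective e.injective h2 }
      exact h1.map f
    intro a b hab _
    rw [isBridge_iff, not_not]
    have h1 : M.Adj (e (e.symm a)) (e (e.symm b)) := by simpa using hab
    rcases hMe _ _ h1 with ⟨i, h2, h3⟩ | ⟨i, h2, h3⟩
    · have ha : a = x i := by rw [← he1, ← h2, e.apply_symm_apply]
      have hb : b = y (π i) := by rw [← he2, ← h3, e.apply_symm_apply]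
      rw [ha, hb]
      exact key i
    · have ha : a = y (π i) := by rw [← he2, ← h2, e.apply_symm_apply]
      have hb : b = x i := by rw [← he1, ← h3, e.apply_symm_apply]
      rw [ha, hb, Sym2.eq_swap]
      exact (key i).symm

end Pool.Agent.H57.TH
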